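import Pool.Graph.R_pool_sql_team_seeded_47a924f7.T6.H52.LS.All

/-!
The doubling 2-Loewner metric sphere of finite area is not linearly locally connected.
-/

set_option autoImplicit false
open MeasureTheory Filter Topology Metric Set
open scoped ENNReal NNReal

namespace Pool.Agent.KS6_11.LlcSph

open Pool.Agent.T6.H52.LS

/-- Second half of linear local connectedness: any two points outside the ball of radius `r` about
`a` lie in a connected set outside the ball of radius `r / lam` about `a`. -/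
def LLC2 (Z : Type) [MetricSpace Z] : Prop :=
  ∃ lam : ℝ, 1 ≤ lam ∧ ∀ (a : Z) (r : ℝ), 0 < r → ∀ x y : Z, r ≤ dist x a → r ≤ dist y a →
    ∃ E : Set Z, IsPreconnected E ∧ x ∈ E ∧ y ∈ E ∧ ∀ z ∈ E, r / lam ≤ dist z a

/-- The points `p` and `q` are separated by compact sets which are arbitrarily small in comparison
with their distances to `p` and to `q`. -/
def ThinRings {X : Type} [MetricSpace X] (p q : X) : Prop :=
  ∀ M : ℝ, 0 < M → ∃ R : Set X, IsCompact R ∧ R.Nontrivial ∧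
    (∀ E : Set X, IsPreconnected E → p ∈ E → q ∈ E → ∃ z ∈ E, z ∈ R) ∧
    ∀ x ∈ R, ∀ y ∈ R, M * dist x y < dist p x ∧ M * dist x y < dist q x

theorem thin {f : ℝ → ℝ} {C : Set ℝ} {Y : ℝ → ℝ → ℝ} {K : ℝ} (hD : Dat f C Y K) {X : Type}
    [MetricSpace X] {P : ℝ × ℝ → X} {N S : X} {c : ℝ} (hM : Mdl f C P N S c) :
    ThinRings N (P (0, 0)) := by
  intro M hMpos
  obtain ⟨hV, hK, -⟩ := mDB f C Y K hD
  obtain ⟨K', h1K, hK'⟩ := hK 2 (by norm_num)
  have hc := hM.pos
  have hKpos : 0 < K := by linarith [hD.one_le]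
  set m : ℝ := V f 1 1 with hm
  have hmpos : 0 < m := hV 1 1 one_pos
  set cs : ℝ := c * min 1 m with hcs
  have hcspos : 0 < cs := mul_pos hc (lt_min one_pos hmpos)
  obtain ⟨j0, hj0⟩ := exists_nat_gt (M * (2 * K' * K) / cs)
  set j : ℝ := max (j0 : ℝ) 2 with hj
  have hj2 : 2 ≤ j := le_max_right _ _
  have hjpos : 0 ≤ j := by linarith
  have hjbig : M * (2 * K' * K) < (1 + j) * cs := by
    have h1 : (j0 : ℝ) ≤ j := le_max_left _ _
    rw [div_lt_iff₀ hcspos] at hj0
    nlinarith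
  have hring := ModNQS.ring_dist hD hM hK' h1K hV j hjpos
  have hlowN : ∀ p ∈ ModNQS.ring P j, cs / (1 + j) ^ 3 ≤ dist N p := by
    rintro p ⟨⟨j1, y⟩, ⟨h1, hy⟩, rfl⟩
    simp only [mem_singleton_iff] at h1
    subst h1
    refine le_trans ?_ (hM.N_low (j, y) hjpos)
    have : cs ≤ c := by
      rw [hcs]
      exact mul_le_of_le_one_right hc.le (min_le_left _ _)
    exact div_le_div_of_nonneg_right this (by positivity)
  have hlowO : ∀ p ∈ ModNQS.ring P j, cs / (1 + j) ^ 3 ≤ dist (P (0, 0)) p := by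
    rintro p ⟨⟨j1, y⟩, ⟨h1, hy⟩, rfl⟩
    simp only [mem_singleton_iff] at h1
    subst h1
    refine le_trans ?_ (hM.lowh (0, 0) (j, y) ?_)
    · have e1 : m ≤ ∫ x in (0 : ℝ)..j, f x := by
        rw [← intervalIntegral.integral_add_adjacent_intervals (ModNQS.f_int hD 0 2)
          (ModNQS.f_int hD 2 j)]
        have e2 : m = ∫ x in (0 : ℝ)..2, f x := by
          rw [hm]
          unfold V
          norm_num
        have e3 : 0 ≤ ∫ x in (2 : ℝ)..j, f x :=
          intervalIntegral.integral_nonneg hj2 fun x _ => hD.nonneg x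
        linarith
      have e4 : cs ≤ c * |∫ x in (0 : ℝ)..j, f x| := by
        rw [hcs]
        refine mul_le_mul_of_nonneg_left ?_ hc.le
        exact (min_le_right _ _).trans (e1.trans (le_abs_self _))
      refine le_trans ?_ e4
      exact div_le_self hcspos.le (one_le_pow₀ (by linarith))
    · show 1 ≤ |(0 : ℝ) - j|
      rw [zero_sub, abs_neg, abs_of_nonneg hjpos]
      linarith
  have h6 : (0 : ℝ) < 1 + j := by linarith
  refine ⟨ModNQS.ring P j, (isCompact_singleton.prod isCompact_Icc).image hM.cont, ?_, ?_, ?_⟩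
  · refine ⟨P (j, 0), mem_image_of_mem _ ⟨rfl, le_rfl, zero_le_one⟩, P (j, 1 / 2),
      mem_image_of_mem _ ⟨rfl, by norm_num, by norm_num⟩, ModNQS.ring_ne hM j⟩
  · intro E hE hNE hOE
    exact ModNQS.separates hM j E hE hNE (0, 0) hjpos hOE
  · intro x hx y hy
    have h1 : M * dist x y < cs / (1 + j) ^ 3 := by
      have h2 := mul_le_mul_of_nonneg_left (hring x y hx hy) hMpos.le
      refine h2.trans_lt ?_
      rw [← mul_div_assoc, div_lt_div_iff₀ (by positivity) (by positivity)]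
      have h3 : (0 : ℝ) < (1 + j) ^ 3 := by positivity
      calc M * (2 * K' * K) * (1 + j) ^ 3 < ((1 + j) * cs) * (1 + j) ^ 3 := by gcongr
        _ = cs * (1 + j) ^ 4 := by ring
    exact ⟨h1.trans_le (hlowN x hx), h1.trans_le (hlowO x hx)⟩

/-- A space with thin rings is not linearly locally connected. -/
theorem not_llc2 {X : Type} [MetricSpace X] {p q : X} (h : ThinRings p q) : ¬ LLC2 X := by
  rintro ⟨lam, hlam, hL⟩
  obtain ⟨R, -, hRn, hsep, hR⟩ := h lam (by linarith)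
  obtain ⟨a, ha⟩ := hRn.nonempty
  have h1 := hR a ha a ha
  rw [dist_self, mul_zero] at h1
  obtain ⟨E, hE, hp, hq, hEz⟩ := hL a (min (dist p a) (dist q a)) (lt_min h1.1 h1.2) p q
    (min_le_left _ _) (min_le_right _ _)
  obtain ⟨z, hzE, hzR⟩ := hsep E hE hp hq
  have h2 := hR a ha z hzR
  have h3 : lam * dist a z < min (dist p a) (dist q a) := lt_min h2.1 h2.2
  have h4 := hEz z hzE
  rw [div_le_iff₀ (by linarith), dist_comm z a, mul_comm] at h4
  linarith

/-- A linearly locally connected space admits no quasisymmetric homeomorphism onto a space with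
thin rings. -/
theorem not_qs {X : Type} [MetricSpace X] {p q : X} (h : ThinRings p q) (Z : Type) [MetricSpace Z]
    (hZ : LLC2 Z) (F : Z ≃ₜ X) (η : ℝ≥0 → ℝ≥0) :
    ¬ ∀ (x a y : Z) (t : ℝ≥0), dist x a ≤ t * dist y a →
      dist (F x) (F a) ≤ η t * dist (F y) (F a) := by
  intro hη
  obtain ⟨lam, hlam, hL⟩ := hZ
  set t : ℝ≥0 := ⟨2 * lam, by linarith⟩ with ht
  obtain ⟨R, hRc, hRn, hsep, hR⟩ := h ((η t : ℝ) + 1) (by positivity)
  set σ : Set Z := F ⁻¹' R with hσ
  have hσc : IsCompact σ := F.isCompact_preimage.2 hRc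
  have hσn : σ.Nontrivial := by
    obtain ⟨a, ha, b, hb, hab⟩ := hRn
    refine ⟨F.symm a, by simpa [hσ] using ha, F.symm b, by simpa [hσ] using hb, ?_⟩
    intro hh
    exact hab (F.symm.injective hh)
  obtain ⟨x0, hx0, x1, hx1, hδ, hmax⟩ := ModNQS.exists_diam σ hσc hσn
  -- one of the two points is close to `x0`
  have hclose : ∃ w : X, (w = p ∨ w = q) ∧ dist (F.symm w) x0 ≤ 2 * lam * dist x0 x1 := by
    by_contra hcon
    push Not at hcon
    have hp := hcon p (Or.inl rfl)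
    have hq := hcon q (Or.inr rfl)
    obtain ⟨E, hE, hpE, hqE, hEz⟩ := hL x0 (2 * lam * dist x0 x1) (by positivity) (F.symm p)
      (F.symm q) hp.le hq.le
    obtain ⟨z', ⟨z, hzE, rfl⟩, hzR⟩ := hsep (F '' E) (hE.image _ F.continuous.continuousOn)
      ⟨_, hpE, F.apply_symm_apply _⟩ ⟨_, hqE, F.apply_symm_apply _⟩
    have h1 := hEz z hzE
    have h2 := hmax z hzR
    rw [div_le_iff₀ (by linarith)] at h1
    nlinarith
  obtain ⟨w, hw, hwd⟩ := hclose
  have h1 := hη (F.symm w) x0 x1 t (by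
    rw [dist_comm x1 x0]
    exact hwd)
  rw [F.apply_symm_apply] at h1
  have h2 := hR (F x0) hx0 (F x1) hx1
  have h3 : ((η t : ℝ) + 1) * dist (F x0) (F x1) < dist w (F x0) := by
    rcases hw with rfl | rfl
    · exact h2.1
    · exact h2.2
  rw [dist_comm (F x1) (F x0)] at h1
  have h4 : 0 ≤ dist (F x0) (F x1) := dist_nonneg
  nlinarith

/-- A homeomorphism of `[0, ∞)` fixes `0`. -/
theorem homeo_zero (η : ℝ≥0 ≃ₜ ℝ≥0) : η 0 = 0 := by
  rcases η.continuous.strictMono_of_inj η.injective with hm | ha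
  · have h1 : η 0 ≤ η (η.symm 0) := hm.monotone zero_le
    rw [η.apply_symm_apply] at h1
    exact le_antisymm h1 zero_le
  · exfalso
    have h1 : η (η.symm (η 0 + 1)) ≤ η 0 := ha.antitone zero_le
    rw [η.apply_symm_apply] at h1
    exact absurd h1 (not_le.2 (lt_add_one _))

/-- A space with thin rings admits no quasisymmetric homeomorphism onto a linearly locally
connected space. -/
theorem not_qs' {X : Type} [MetricSpace X] {p q : X} (h : ThinRings p q) (Z : Type) [MetricSpace Z]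
    (hZ : LLC2 Z) (F : X ≃ₜ Z) : ¬ QS F := by
  rintro ⟨η, hη⟩
  obtain ⟨lam, hlam, hL⟩ := hZ
  set δ : ℝ≥0 := ⟨1 / (2 * lam), by positivity⟩ with hδ
  have hδpos : (0 : ℝ) < 1 / (2 * lam) := by positivity
  set ε : ℝ≥0 := η.symm δ with hε
  have hηε : ((η ε : ℝ≥0) : ℝ) = 1 / (2 * lam) := by
    rw [hε, η.apply_symm_apply]
    rfl
  have hεpos : (0 : ℝ) < ε := by
    rcases (zero_le : (0 : ℝ≥0) ≤ ε).eq_or_lt with h0 | h0
    · exfalso
      rw [← h0, homeo_zero] at hηε
      rw [← hηε] at hδpos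
      simp at hδpos
    · exact_mod_cast h0
  obtain ⟨R, -, hRn, hsep, hR⟩ := h (1 / ε) (by positivity)
  obtain ⟨a, ha⟩ := hRn.nonempty
  have h1 := hR a ha a ha
  rw [dist_self, mul_zero] at h1
  have hpa : 0 < dist (F p) (F a) := dist_pos.2 fun hh => (dist_pos.1 h1.1) (F.injective hh)
  have hqa : 0 < dist (F q) (F a) := dist_pos.2 fun hh => (dist_pos.1 h1.2) (F.injective hh)
  set r : ℝ := min (dist (F p) (F a)) (dist (F q) (F a)) with hr
  have hrpos : 0 < r := lt_min hpa hqa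
  obtain ⟨E, hE, hp, hq, hEz⟩ := hL (F a) r hrpos (F p) (F q) (min_le_left _ _) (min_le_right _ _)
  obtain ⟨x, ⟨z, hzE, rfl⟩, hxR⟩ := hsep (F.symm '' E)
    (hE.image _ F.symm.continuous.continuousOn) ⟨_, hp, F.symm_apply_apply _⟩
    ⟨_, hq, F.symm_apply_apply _⟩
  have h2 := hR a ha _ hxR
  have key : ∀ w : X, 1 / (ε : ℝ) * dist a (F.symm z) < dist w a →
      dist z (F a) ≤ 1 / (2 * lam) * dist (F w) (F a) := by
    intro w hw
    have h3 := hη (F.symm z) a w ε (by
      rw [one_div, inv_mul_lt_iff₀ hεpos, dist_comm a] at hw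
      exact hw.le)
    rwa [F.apply_symm_apply, hηε] at h3
  have h3 := key p h2.1
  have h4 := key q h2.2
  have h5 : dist z (F a) ≤ 1 / (2 * lam) * r := by
    rcases min_choice (dist (F p) (F a)) (dist (F q) (F a)) with hh | hh
    · rw [hr, hh]; exact h3
    · rw [hr, hh]; exact h4
  have h6 := hEz z hzE
  have h7 : 1 / (2 * lam) * r < r / lam := by
    rw [one_div, inv_mul_lt_iff₀ (by positivity)]
    have : 2 * lam * (r / lam) = 2 * r := by field_simp
    rw [this]
    linarith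
  linarith

/-- The main theorem. -/
theorem main : ∃ (X : Type) (_ : MetricSpace X) (_ : MeasurableSpace X) (_ : BorelSpace X),
    Nonempty (S2 ≃ₜ X) ∧ (μH[2] : Measure X) univ < ∞ ∧ Doubling X ∧ Loewner X ∧
      (¬ ∃ F : S2 ≃ₜ X, QS F) ∧ ∃ p q : X, p ≠ q ∧ ThinRings p q := by
  have hLKT : StmLKT := mLKT
  have hCURV : StmCURV := mCURV
  have hDB : StmDB := mDB
  have hSEGV : StmSEGV := mSEGV hDB
  have hSEGH : StmSEGH := mSEGH hDB
  have hHAUL : StmHAUL := mHAUL hDB
  have hFINA : StmFINA := mFINA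
  have hDBX : StmDBX := mDBX hDB
  have hNQS : StmNQS := mNQS hDB
  have hLV : StmLV := mLV hCURV hLKT hSEGV hHAUL
  have hLH : StmLH := mLH hCURV hLKT hSEGH hHAUL
  have hLF : StmLF := mLF hCURV hHAUL
  have hEXIT : StmEXIT := mEXIT
  have hCASEA : StmCASEA := mCASEA hLKT hLV hLH hEXIT
  have hCASEB : StmCASEB := mCASEB hLKT hLV hLH hLF hEXIT
  have hSIZE : StmSIZE := mSIZE hDB
  have hCAN : StmCAN := mCAN
  have hFFA : StmFFA := mFFA
  have hFFB : StmFFB := mFFB
  have hSUM : StmSUM := mSUM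
  have hPRO : StmPRO := mPRO
  have hINT : StmINT := mINT hPRO
  have hDLL : StmDLL := mDLL hPRO
  have hADJ : StmADJ := mADJ hPRO hINT
  have hVDB : StmVDB := mVDB hPRO hINT hADJ
  have hCOM : StmCOM := mCOM hPRO
  have hYGG : StmYGG := mYGG hCAN hFFA hPRO hDLL hVDB hCOM
  have hYEN : StmYEN := mYEN hPRO hFFA hFFB hSUM
  have hPSI : StmPSI := mPSI
  have hPSC : StmPSC := mPSC hPSI
  have hHHL : StmHHL := mHHL hDB
  have hPOTN : StmPOTN := mPOTN hDB hPSI hPSC
  have hPOTF : StmPOTF := mPOTF hDB hPSI hPSC hHHL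
  have hPOTH : StmPOTH := mPOTH hDB hPSI hPSC hHHL
  have hUPT : StmUPT := mUPT hDB hPSI
  have hMDL : StmMDL := mMDL hDB hPSI hPSC hPOTN hPOTF hPOTH hUPT
  have hDAT : StmDAT := mDAT hCAN hFFA hPRO hDLL hVDB hYGG hYEN
  obtain ⟨K, hD⟩ := hDAT
  obtain ⟨X, inst, P, N, S, c, hM, hX⟩ := hMDL f0 C0 Y0 K hD
  letI : MeasurableSpace X := borel X
  haveI : BorelSpace X := ⟨rfl⟩
  refine ⟨X, inst, inferInstance, inferInstance, hX, hFINA f0 C0 Y0 K hD X P N S c hM,
    hDBX f0 C0 Y0 K hD X P N S c hM,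
    mLOE hCASEA hCASEB hSIZE f0 C0 Y0 K hD X P N S c hM, ?_,
    N, P (0, 0), (hM.ne_N _).symm, thin hD hM⟩
  rintro ⟨F, hF⟩
  exact hNQS f0 C0 Y0 K hD X P N S c hM F hF

end Pool.Agent.KS6_11.LlcSph
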